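import Mathlib
import Pool.Agent.LCI.Stmts

/-!
# Row lci MN1: torus invariant valuations are monomial for independent degrees
-/

set_option autoImplicit false

namespace Pool.Agent.LCI.H95

open scoped BigOperators
open Pool.Agent.LCI

section
variable {k K : Type} [Field k] [Field K] [Algebra k K] (v : RVal k K)

theorem val_one : v.v 1 = 0 := by
  have h := v.const' 1 one_ne_zero
  rwa [map_one] at h

theorem val_pow {x : K} (hx : x ≠ 0) (n : ℕ) : v.v (x ^ n) = n * v.v x := by
  induction n with
  | zero => rw [pow_zero, val_one, Nat.cast_zero, zero_mul]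
  | succ n ih =>
    rw [pow_succ, v.mul' _ _ (pow_ne_zero n hx) hx, ih]
    push_cast
    ring

theorem val_prod {ι : Type} (S : Finset ι) (f : ι → K) (h : ∀ i ∈ S, f i ≠ 0) :
    v.v (∏ i ∈ S, f i) = ∑ i ∈ S, v.v (f i) := by
  classical
  induction S using Finset.induction_on with
  | empty => rw [Finset.prod_empty, Finset.sum_empty, val_one]
  | insert a S ha ih =>
    rw [Finset.prod_insert ha, Finset.sum_insert ha, v.mul' _ _ (h a (by simp))
      (Finset.prod_ne_zero_iff.2 (fun i hi => h i (by simp [hi]))),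
      ih (fun i hi => h i (by simp [hi]))]

theorem val_sum {ι : Type} (S : Finset ι) (f : ι → K) (h : ∀ i ∈ S, f i ≠ 0)
    (h0 : ∑ i ∈ S, f i ≠ 0) : ∃ i ∈ S, v.v (f i) ≤ v.v (∑ i ∈ S, f i) := by
  classical
  induction S using Finset.induction_on with
  | empty => simp at h0
  | insert a S ha ih =>
    rw [Finset.sum_insert ha] at h0 ⊢
    by_cases h1 : ∑ i ∈ S, f i = 0
    · refine ⟨a, by simp, ?_⟩
      rw [h1, add_zero]
    · obtain ⟨b, hb, hb'⟩ := ih (fun i hi => h i (by simp [hi])) h1
      have h2 := v.add' _ _ (h a (by simp)) h1 h0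
      rcases min_le_iff.1 h2 with h3 | h3
      · exact ⟨a, by simp, h3⟩
      · exact ⟨b, by simp [hb], hb'.trans h3⟩

end

theorem mn1 : Mn1Stmt := by
  intro k R K _ _ _ _ _ _ _ _ _ _ r 𝒜 _ v s h u hT hne hmem hind
  classical
  have hinjK : Function.Injective (algebraMap R K) := IsFractionRing.injective R K
  have hinjk : Function.Injective (algebraMap k R) := (algebraMap k R).injective
  have hdeg : ∀ α β : Fin s →₀ ℕ, ∑ i, α i • u i = ∑ i, β i • u i → α = β := by
    intro α β hab
    have h1 : ∑ i, ((α i : ℤ) - (β i : ℤ)) • u i = 0 := by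
      simp only [sub_smul, Finset.sum_sub_distrib, natCast_zsmul]
      rw [hab, sub_self]
    have h2 := Fintype.linearIndependent_iff.1 hind _ h1
    ext i
    have h3 := h2 i
    omega
  have hH : ∀ α : Fin s →₀ ℕ, ∏ i, h i ^ α i ∈ 𝒜 (∑ i, α i • u i) := by
    intro α
    exact SetLike.prod_mem_graded 𝒜 (fun i => α i • u i) (fun i => h i ^ α i)
      (fun i _ => SetLike.pow_mem_graded _ (hmem i))
  have hH0 : ∀ α : Fin s →₀ ℕ, ∏ i, h i ^ α i ≠ 0 := fun α =>
    Finset.prod_ne_zero_iff.2 (fun i _ => pow_ne_zero _ (hne i))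
  refine ⟨fun i => ?_, ?_⟩
  · intro h0
    have h0' : algebraMap R K (h i) = 0 := h0
    exact hne i (hinjK (by rw [h0', map_zero]))
  · intro P hP
    have hev : MvPolynomial.aeval h P =
        ∑ α ∈ P.support, algebraMap k R (P.coeff α) * ∏ i, h i ^ α i := by
      rw [MvPolynomial.aeval_def, MvPolynomial.eval₂_eq']
    have hev' : MvPolynomial.aeval (fun i => algebraMap R K (h i)) P =
        algebraMap R K (MvPolynomial.aeval h P) :=
      MvPolynomial.aeval_algebraMap_apply K h P
    have hc : ∀ α : Fin s →₀ ℕ, algebraMap k R (P.coeff α) * ∏ i, h i ^ α i ∈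
        𝒜 (∑ i, α i • u i) := by
      intro α
      rw [← Algebra.smul_def]
      exact Submodule.smul_mem _ _ (hH α)
    have hproj : ∀ α ∈ P.support, GradedRing.proj 𝒜 (∑ i, α i • u i) (MvPolynomial.aeval h P) =
        algebraMap k R (P.coeff α) * ∏ i, h i ^ α i := by
      intro α hα
      rw [hev, map_sum, Finset.sum_eq_single α]
      · rw [GradedRing.proj_apply, DirectSum.decompose_of_mem_same 𝒜 (hc α)]
      · intro β _ hβ
        rw [GradedRing.proj_apply, DirectSum.decompose_of_mem_ne 𝒜 (hc β)]
        intro h1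
        exact hβ (hdeg _ _ h1)
      · intro h1
        exact absurd hα h1
    have hc0 : ∀ α ∈ P.support, algebraMap k R (P.coeff α) * ∏ i, h i ^ α i ≠ 0 := by
      intro α hα
      refine mul_ne_zero ?_ (hH0 α)
      intro h1
      exact MvPolynomial.mem_support_iff.1 hα (hinjk (by rw [h1, map_zero]))
    have hval : ∀ α ∈ P.support, v.v (algebraMap R K
        (algebraMap k R (P.coeff α) * ∏ i, h i ^ α i)) =
          ∑ i, (α i : ℝ) * v.v (algebraMap R K (h i)) := by
      intro α hα
      have hK : ∀ i, algebraMap R K (h i) ≠ 0 := fun i h0 =>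
        hne i (hinjK (by rw [h0, map_zero]))
      rw [map_mul, map_prod, ← IsScalarTower.algebraMap_apply k R K, v.mul']
      · rw [v.const' _ (MvPolynomial.mem_support_iff.1 hα), zero_add, val_prod]
        · refine Finset.sum_congr rfl (fun i _ => ?_)
          rw [map_pow, val_pow v (hK i)]
        · intro i _
          rw [map_pow]
          exact pow_ne_zero _ (hK i)
      · intro h0
        exact MvPolynomial.mem_support_iff.1 hα ((algebraMap k K).injective
          (by rw [h0, map_zero]))
      · refine Finset.prod_ne_zero_iff.2 (fun i _ => ?_)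
        rw [map_pow]
        exact pow_ne_zero _ (hK i)
    have hup : ∀ α ∈ P.support, v.v (algebraMap R K (MvPolynomial.aeval h P)) ≤
        ∑ i, (α i : ℝ) * v.v (algebraMap R K (h i)) := by
      intro α hα
      rw [← hval α hα, ← hproj α hα]
      refine hT _ _ ?_
      rw [hproj α hα]
      exact hc0 α hα
    obtain ⟨α0, hα0⟩ := MvPolynomial.support_nonempty.2 hP
    have hne0 : MvPolynomial.aeval h P ≠ 0 := by
      intro h0
      have h1 := hproj α0 hα0
      rw [h0, map_zero] at h1
      exact hc0 α0 hα0 h1.symm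
    have hneK : algebraMap R K (MvPolynomial.aeval h P) ≠ 0 := fun h0 =>
      hne0 (hinjK (by rw [h0, map_zero]))
    rw [hev']
    refine ⟨hneK, ?_, hup⟩
    have hsum : algebraMap R K (MvPolynomial.aeval h P) = ∑ α ∈ P.support,
        algebraMap R K (algebraMap k R (P.coeff α) * ∏ i, h i ^ α i) := by
      rw [hev, map_sum]
    obtain ⟨α, hα, hle⟩ := val_sum v P.support
      (fun α => algebraMap R K (algebraMap k R (P.coeff α) * ∏ i, h i ^ α i))
      (fun α hα h0 => hc0 α hα (hinjK (by rw [h0, map_zero]))) (by rw [← hsum]; exact hneK)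
    rw [← hsum, hval α hα] at hle
    exact ⟨α, hα, le_antisymm (hup α hα) hle⟩

end Pool.Agent.LCI.H95
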